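import Pool.Agent.X79.EQ.Final

/-!
# All continuous changes of the height
-/

set_option autoImplicit false

namespace Pool.Agent.X79.EQ

open Filter MeasureTheory Set Topology

/-- the clamp to `[0, 1]` -/
noncomputable def cl (t : ℝ) : ℝ := max 0 (min 1 t)

lemma cl_mono {s t : ℝ} (h : s ≤ t) : cl s ≤ cl t :=
  max_le_max le_rfl (min_le_min le_rfl h)

lemma cl_one {t : ℝ} (h : 1 ≤ t) : cl t = 1 := by
  unfold cl
  rw [min_eq_left h, max_eq_right zero_le_one]

lemma cl_zero {t : ℝ} (h : t ≤ 0) : cl t = 0 := by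
  unfold cl
  rw [max_eq_left]
  exact (min_le_right _ _).trans h

lemma cl_cont : Continuous cl := by
  unfold cl
  fun_prop

/-- the pieces -/
noncomputable def pc (j : ℕ) (t : ℝ) : ℝ := cl (t - j) - cl (t - (j + 1 : ℕ))

lemma pc_nonneg (j : ℕ) (t : ℝ) : 0 ≤ pc j t := by
  unfold pc
  have : cl (t - (j + 1 : ℕ)) ≤ cl (t - j) := cl_mono (by push_cast; linarith)
  linarith

lemma pc_sum (n : ℕ) {t : ℝ} (h1 : 1 ≤ t) (h2 : t ≤ n) : ∑ j ∈ Finset.range n, pc j t = 1 := by
  unfold pc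
  rw [Finset.sum_range_sub' (fun j : ℕ => cl (t - j))]
  rw [cl_one (by push_cast; linarith), cl_zero (by linarith)]
  norm_num

lemma pc_supp {j : ℕ} {t : ℝ} (h : pc j t ≠ 0) : (j : ℝ) ≤ t ∧ t ≤ j + 2 := by
  constructor
  · by_contra hc
    apply h
    unfold pc
    rw [cl_zero (by linarith), cl_zero (by push_cast; linarith)]
    norm_num
  · by_contra hc
    apply h
    unfold pc
    rw [cl_one (by linarith), cl_one (by push_cast; linarith)]
    norm_num

lemma pc_cont (j : ℕ) : Continuous (pc j) := by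
  unfold pc
  exact (cl_cont.comp (continuous_id.sub continuous_const)).sub
    (cl_cont.comp (continuous_id.sub continuous_const))

section

variable {X : Type*} {h : X → ℝ} (hfin : Fin' h)

include hfin in
lemma cnt_mono_supp {w f f' : X → ℝ} {M M' : ℝ} (hf : ∀ x, |f x| ≤ M) (hf' : ∀ x, |f' x| ≤ M')
    (hw : ∀ x, 0 ≤ w x) (hff : ∀ x, w x ≠ 0 → f x ≤ f' x) (u : ℝ) :
    cnt h w f u ≤ cnt h w f' u := by
  classical
  rw [cnt_eq hfin hf (T := u + max M M') (by linarith [le_max_left M M']),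
    cnt_eq hfin hf' (T := u + max M M') (by linarith [le_max_right M M'])]
  apply Finset.sum_le_sum
  intro x _
  by_cases h0 : w x = 0
  · rw [h0]
    simp
  · by_cases h1 : h x ≤ u + f x
    · rw [if_pos h1, if_pos (h1.trans (by linarith [hff x h0]))]
    · rw [if_neg h1]
      split_ifs
      · exact hw x
      · exact le_rfl

include hfin in
lemma cnt_sum {w : ℕ → X → ℝ} {f : X → ℝ} {M : ℝ} (hf : ∀ x, |f x| ≤ M) (n : ℕ) (u : ℝ) :
    cnt h (fun x => ∑ j ∈ Finset.range n, w j x) f u = ∑ j ∈ Finset.range n, cnt h (w j) f u := by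
  classical
  rw [cnt_eq hfin hf le_rfl]
  have : ∀ j, cnt h (w j) f u =
      ∑ x ∈ (hfin (u + M)).toFinset, if h x ≤ u + f x then w j x else 0 :=
    fun j => cnt_eq hfin hf le_rfl
  simp only [this]
  rw [Finset.sum_comm]
  apply Finset.sum_congr rfl
  intro x _
  split_ifs <;> simp

variable {F : Submodule ℝ (X → ℝ)} {b : ℕ} (H : Hyp h F b)

include H in
lemma good_sum {w : ℕ → X → ℝ} (hw : ∀ j, Good h F b (w j)) (n : ℕ) :
    Good h F b (fun x => ∑ j ∈ Finset.range n, w j x) := by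
  induction n with
  | zero => simpa using good_const H 0
  | succ n ih =>
    have := ih.add H (hw n)
    simpa only [Finset.sum_range_succ] using this

include H in
lemma Lim_sum {w : ℕ → X → ℝ} (hw : ∀ j, Good h F b (w j)) (n : ℕ) :
    Lim h b (fun x => ∑ j ∈ Finset.range n, w j x) = ∑ j ∈ Finset.range n, Lim h b (w j) := by
  induction n with
  | zero =>
    have := Lim_smul H (good_const H 0) 0
    simpa using this
  | succ n ih =>
    have := Lim_add H (good_sum H hw n) (hw n)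
    simp only [Finset.sum_range_succ]
    rw [this, ih]

include H in
lemma Lim_mono {w w' : X → ℝ} (hw : Good h F b w) (hw' : Good h F b w')
    (hle : ∀ x, w x ≤ w' x) : Lim h b w ≤ Lim h b w' := by
  have h1 : Good h F b (fun x => (-1) * w x + w' x) := (hw.smul H (-1)).add H hw'
  have h2 := Lim_nonneg H h1 (fun x => by linarith [hle x])
  rw [Lim_add H (hw.smul H (-1)) hw', Lim_smul H hw] at h2
  linarith

include H in
/-- nonnegative weights, all continuous changes of the height -/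
theorem gen_nonneg {w f₀ : X → ℝ} {M : ℝ} (hM0 : 0 ≤ M) (hM : ∀ x, |f₀ x| ≤ M) (hw0 : ∀ x, 0 ≤ w x)
    (hΨ : ∀ Ψ : ℝ → ℝ, Continuous Ψ → Good h F b (fun x => w x * Ψ (f₀ x))) :
    Tendsto (fun u => cnt h w f₀ u / nu b u) atTop
      (𝓝 (Lim h b (fun x => w x * Real.exp (f₀ x)))) := by
  have hfin := H.fin
  set L : ℝ := Lim h b (fun x => w x * Real.exp (f₀ x)) with hL
  have hgL := hΨ Real.exp Real.continuous_exp
  have hL0 : 0 ≤ L := Lim_nonneg H hgL fun x => mul_nonneg (hw0 x) (Real.exp_pos _).le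
  rw [Metric.tendsto_atTop']
  intro ε hε
  -- the step
  obtain ⟨δ, hδ, hδε⟩ : ∃ δ : ℝ, 0 < δ ∧ (Real.exp (2 * δ) - 1) * L < ε / 2 := by
    have h1 : Tendsto (fun δ : ℝ => (Real.exp (2 * δ) - 1) * L) (𝓝[>] 0) (𝓝 0) := by
      have h2 : Continuous (fun δ : ℝ => (Real.exp (2 * δ) - 1) * L) := by fun_prop
      have h3 := h2.tendsto 0
      simp only [mul_zero, Real.exp_zero, sub_self, zero_mul] at h3
      exact h3.mono_left nhdsWithin_le_nhds
    have h4 := (h1.eventually (gt_mem_nhds (half_pos hε))).and self_mem_nhdsWithin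
    obtain ⟨δ, h5, h6⟩ := h4.exists
    exact ⟨δ, h6, h5⟩
  set n : ℕ := ⌈2 * M / δ⌉₊ + 1 with hn
  let T : ℝ → ℝ := fun t => (t + M) / δ + 1
  have hTc : Continuous T := by
    show Continuous fun t : ℝ => (t + M) / δ + 1
    fun_prop
  let wj : ℕ → X → ℝ := fun j x => w x * pc j (T (f₀ x))
  have hwj0 : ∀ j x, 0 ≤ wj j x := fun j x => mul_nonneg (hw0 x) (pc_nonneg _ _)
  have hgj : ∀ j, Good h F b (wj j) := fun j => hΨ (fun t => pc j (T t)) ((pc_cont j).comp hTc)
  have hsum : ∀ x, ∑ j ∈ Finset.range n, pc j (T (f₀ x)) = 1 := by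
    intro x
    obtain ⟨h1, h2⟩ := abs_le.1 (hM x)
    apply pc_sum
    · show 1 ≤ (f₀ x + M) / δ + 1
      have : 0 ≤ (f₀ x + M) / δ := div_nonneg (by linarith) hδ.le
      linarith
    · show (f₀ x + M) / δ + 1 ≤ (n : ℝ)
      have h3 : (f₀ x + M) / δ ≤ 2 * M / δ := div_le_div_of_nonneg_right (by linarith) hδ.le
      have h4 := Nat.le_ceil (2 * M / δ)
      rw [hn]
      push_cast
      linarith
  let a : ℕ → ℝ := fun j => δ * ((j : ℝ) - 1) - M
  have hsupp : ∀ j x, wj j x ≠ 0 → a j ≤ f₀ x ∧ f₀ x ≤ a j + 2 * δ := by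
    intro j x hx
    have h1 : pc j (T (f₀ x)) ≠ 0 := fun h0 => hx (by show w x * pc j (T (f₀ x)) = 0; rw [h0, mul_zero])
    obtain ⟨h2, h3⟩ := pc_supp h1
    have h2' : (j : ℝ) ≤ (f₀ x + M) / δ + 1 := h2
    have h3' : (f₀ x + M) / δ + 1 ≤ (j : ℝ) + 2 := h3
    have e : (f₀ x + M) / δ * δ = f₀ x + M := div_mul_cancel₀ _ hδ.ne'
    have h4 := mul_le_mul_of_nonneg_right h2' hδ.le
    have h5 := mul_le_mul_of_nonneg_right h3' hδ.le
    constructor
    · show δ * ((j : ℝ) - 1) - M ≤ f₀ x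
      nlinarith
    · show f₀ x ≤ δ * ((j : ℝ) - 1) - M + 2 * δ
      nlinarith
  have hconst : ∀ (j : ℕ) (c : ℝ), Tendsto (fun u => cnt h (wj j) (fun _ => c) u / nu b u) atTop
      (𝓝 (Real.exp c * Lim h b (wj j))) := by
    intro j c
    have h1 := lim_all H (hgj j) (const_mem H c)
    have h2 : (fun x => wj j x * Real.exp c) = fun x => Real.exp c * wj j x := by
      funext x
      ring
    rw [h2, Lim_smul H (hgj j)] at h1
    exact h1
  have hlo : Tendsto (fun u => ∑ j ∈ Finset.range n, cnt h (wj j) (fun _ => a j) u / nu b u) atTop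
      (𝓝 (∑ j ∈ Finset.range n, Real.exp (a j) * Lim h b (wj j))) :=
    tendsto_finset_sum _ fun j _ => hconst j (a j)
  have hhi : Tendsto (fun u => ∑ j ∈ Finset.range n, cnt h (wj j) (fun _ => a j + 2 * δ) u / nu b u)
      atTop (𝓝 (∑ j ∈ Finset.range n, Real.exp (a j + 2 * δ) * Lim h b (wj j))) :=
    tendsto_finset_sum _ fun j _ => hconst j (a j + 2 * δ)
  set S : ℝ := ∑ j ∈ Finset.range n, Real.exp (a j) * Lim h b (wj j) with hS
  have hS2 : ∑ j ∈ Finset.range n, Real.exp (a j + 2 * δ) * Lim h b (wj j) =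
      Real.exp (2 * δ) * S := by
    rw [hS, Finset.mul_sum]
    apply Finset.sum_congr rfl
    intro j _
    rw [Real.exp_add]
    ring
  rw [hS2] at hhi
  -- the limit of the pieces
  have hgje : ∀ j, Good h F b (fun x => wj j x * Real.exp (f₀ x)) := by
    intro j
    have h1 := hΨ (fun t => pc j (T t) * Real.exp t)
      (((pc_cont j).comp hTc).mul Real.continuous_exp)
    have h2 : (fun x => wj j x * Real.exp (f₀ x)) =
        fun x => w x * (pc j (T (f₀ x)) * Real.exp (f₀ x)) := by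
      funext x
      show w x * pc j (T (f₀ x)) * Real.exp (f₀ x) = _
      ring
    rw [h2]
    exact h1
  have hLsum : L = ∑ j ∈ Finset.range n, Lim h b (fun x => wj j x * Real.exp (f₀ x)) := by
    rw [← Lim_sum H hgje, hL]
    congr 1
    funext x
    rw [← Finset.sum_mul]
    congr 1
    show w x = ∑ j ∈ Finset.range n, w x * pc j (T (f₀ x))
    rw [← Finset.mul_sum, hsum x, mul_one]
  have hSL : S ≤ L := by
    rw [hLsum, hS]
    apply Finset.sum_le_sum
    intro j _
    rw [← Lim_smul H (hgj j)]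
    apply Lim_mono H ((hgj j).smul H _) (hgje j)
    intro x
    by_cases h0 : wj j x = 0
    · rw [h0]; simp
    · rw [mul_comm]
      exact mul_le_mul_of_nonneg_left (Real.exp_le_exp.2 (hsupp j x h0).1) (hwj0 j x)
  have hLS : L ≤ Real.exp (2 * δ) * S := by
    rw [hLsum, ← hS2]
    apply Finset.sum_le_sum
    intro j _
    rw [← Lim_smul H (hgj j)]
    apply Lim_mono H (hgje j) ((hgj j).smul H _)
    intro x
    by_cases h0 : wj j x = 0
    · rw [h0]; simp
    · rw [mul_comm (Real.exp _)]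
      exact mul_le_mul_of_nonneg_left (Real.exp_le_exp.2 (hsupp j x h0).2) (hwj0 j x)
  have hexp1 : 1 ≤ Real.exp (2 * δ) := Real.one_le_exp (by linarith)
  have k1 : Real.exp (2 * δ) * S ≤ L + (Real.exp (2 * δ) - 1) * L := by
    have := mul_le_mul_of_nonneg_left hSL (Real.exp_pos (2 * δ)).le
    linarith
  have k2 : L - (Real.exp (2 * δ) - 1) * L ≤ S := by
    have h1 : L ≤ S + (Real.exp (2 * δ) - 1) * S := by linarith
    have h2 : (Real.exp (2 * δ) - 1) * S ≤ (Real.exp (2 * δ) - 1) * L :=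
      mul_le_mul_of_nonneg_left hSL (by linarith)
    linarith
  have e1 := hlo.eventually (lt_mem_nhds (show S - ε / 2 < S by linarith))
  have e2 := hhi.eventually (gt_mem_nhds (show Real.exp (2 * δ) * S <
    Real.exp (2 * δ) * S + ε / 2 by linarith))
  obtain ⟨u₀, hu₀⟩ := eventually_atTop.1 ((e1.and e2).and (ev_pos (b := b)))
  refine ⟨u₀, fun u hu => ?_⟩
  obtain ⟨⟨g1, g2⟩, g3⟩ := hu₀ u (le_of_lt hu)
  have hww : w = fun x => ∑ j ∈ Finset.range n, wj j x := by
    funext x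
    show w x = ∑ j ∈ Finset.range n, w x * pc j (T (f₀ x))
    rw [← Finset.mul_sum, hsum x, mul_one]
  have hcnt : cnt h w f₀ u = ∑ j ∈ Finset.range n, cnt h (wj j) f₀ u := by
    conv_lhs => rw [hww]
    exact cnt_sum hfin hM n u
  have hconstb : ∀ c : ℝ, ∀ _x : X, |(fun _ : X => c) _x| ≤ |c| := fun c _ => le_rfl
  have m1 : ∑ j ∈ Finset.range n, cnt h (wj j) (fun _ => a j) u / nu b u ≤
      cnt h w f₀ u / nu b u := by
    rw [hcnt, Finset.sum_div]
    apply Finset.sum_le_sum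
    intro j _
    apply div_le_div_of_nonneg_right _ g3.le
    exact cnt_mono_supp hfin (hconstb (a j)) hM (hwj0 j) (fun x hx => (hsupp j x hx).1) u
  have m2 : cnt h w f₀ u / nu b u ≤
      ∑ j ∈ Finset.range n, cnt h (wj j) (fun _ => a j + 2 * δ) u / nu b u := by
    rw [hcnt, Finset.sum_div]
    apply Finset.sum_le_sum
    intro j _
    apply div_le_div_of_nonneg_right _ g3.le
    exact cnt_mono_supp hfin hM (hconstb (a j + 2 * δ)) (hwj0 j) (fun x hx => (hsupp j x hx).2) u
  rw [Real.dist_eq, abs_lt]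
  constructor <;> linarith

include H in
/-- **all continuous changes of the height** -/
theorem gen {w f₀ : X → ℝ} {M W : ℝ} (hM : ∀ x, |f₀ x| ≤ M) (hW : ∀ x, |w x| ≤ W)
    (hΨ : ∀ Ψ : ℝ → ℝ, Continuous Ψ → Good h F b (fun x => w x * Ψ (f₀ x)))
    (hΨ' : ∀ Ψ : ℝ → ℝ, Continuous Ψ → Good h F b (fun x => Ψ (f₀ x))) :
    Tendsto (fun u => cnt h w f₀ u / nu b u) atTop
      (𝓝 (Lim h b (fun x => w x * Real.exp (f₀ x)))) := by
  have hM' : ∀ x, |f₀ x| ≤ |M| := fun x => (hM x).trans (le_abs_self _)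
  have h1 := gen_nonneg H (w := fun x => w x + |W|) (abs_nonneg M) hM'
    (fun x => by
      have := (abs_le.1 ((hW x).trans (le_abs_self W))).1
      linarith)
    (fun Ψ hc => by
      have g1 := (hΨ Ψ hc).add H ((hΨ' Ψ hc).smul H |W|)
      have e : (fun x => (w x + |W|) * Ψ (f₀ x)) = fun x => w x * Ψ (f₀ x) + |W| * Ψ (f₀ x) := by
        funext x
        ring
      rw [e]
      exact g1)
  have h2 := gen_nonneg H (w := fun _ => |W|) (abs_nonneg M) hM' (fun _ => abs_nonneg _)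
    (fun Ψ hc => (hΨ' Ψ hc).smul H |W|)
  have hex := Real.continuous_exp
  have e1 : Lim h b (fun x => (w x + |W|) * Real.exp (f₀ x)) =
      Lim h b (fun x => w x * Real.exp (f₀ x)) + Lim h b (fun x => |W| * Real.exp (f₀ x)) := by
    rw [← Lim_add H (hΨ _ hex) ((hΨ' _ hex).smul H |W|)]
    congr 1
    funext x
    ring
  have h3 := h1.sub h2
  rw [e1, add_sub_cancel_right] at h3
  refine h3.congr fun u => ?_
  rw [← sub_div, cnt_add H.fin hM, add_sub_cancel_right]

end

end Pool.Agent.X79.EQ
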