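import Mathlib

/-!
# Averages over the scales of a counting function
-/

set_option autoImplicit false

namespace Pool.Agent.X79.EQ

open Filter MeasureTheory Set Topology

/-- the normalisation `B (log B) ^ b`, `u = log B` -/
noncomputable def nu (b : ℕ) (u : ℝ) : ℝ := Real.exp u * u ^ b

lemma nu_pos {b : ℕ} {u : ℝ} (hu : 0 < u) : 0 < nu b u := by
  unfold nu
  positivity

lemma nu_ratio (b : ℕ) (v : ℝ) : Tendsto (fun u : ℝ => nu b (u - v) / nu b u) atTop
    (𝓝 (Real.exp (-v))) := by
  have h1 : Tendsto (fun u : ℝ => (1 - v / u) ^ b) atTop (𝓝 1) := by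
    have h2 : Tendsto (fun u : ℝ => v / u) atTop (𝓝 0) := tendsto_const_nhds.div_atTop tendsto_id
    have h3 := (tendsto_const_nhds (x := (1 : ℝ))).sub h2
    have h4 := h3.pow b
    simpa using h4
  have h5 : Tendsto (fun u : ℝ => Real.exp (-v) * (1 - v / u) ^ b) atTop (𝓝 (Real.exp (-v) * 1)) :=
    tendsto_const_nhds.mul h1
  rw [mul_one] at h5
  refine h5.congr' ?_
  filter_upwards [eventually_gt_atTop 0] with u hu
  unfold nu
  have h6 : 1 - v / u = (u - v) / u := by field_simp
  rw [h6, div_pow, Real.exp_sub, Real.exp_neg]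
  field_simp

/-- a growth bound on all scales -/
lemma growth {U : ℝ → ℝ} {b : ℕ} {a u₀ : ℝ} (hmono : Monotone U) (h0 : ∀ u, u < u₀ → U u = 0)
    (hlim : Tendsto (fun u => U u / nu b u) atTop (𝓝 a)) :
    (∀ y, 0 ≤ U y) ∧ ∃ C : ℝ, 0 ≤ C ∧ ∀ y, U y ≤ C * (Real.exp y * (max 1 y) ^ b) := by
  have hU : ∀ y, 0 ≤ U y := by
    intro y
    have h1 : U (min y (u₀ - 1)) = 0 := h0 _ (lt_of_le_of_lt (min_le_right _ _) (by linarith))
    rw [← h1]
    exact hmono (min_le_left _ _)
  refine ⟨hU, ?_⟩
  have h2 : ∀ᶠ u in atTop, U u / nu b u < a + 1 := hlim.eventually (gt_mem_nhds (by linarith))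
  obtain ⟨y₁, hy₁⟩ := eventually_atTop.1 (h2.and (eventually_ge_atTop 1))
  have hy1 : 1 ≤ y₁ := (hy₁ y₁ le_rfl).2
  set C : ℝ := max (max (a + 1) (U y₁ * Real.exp (-u₀))) 0 with hC
  have hC1 : a + 1 ≤ C := (le_max_left _ _).trans (le_max_left _ _)
  have hC2 : U y₁ * Real.exp (-u₀) ≤ C := (le_max_right _ _).trans (le_max_left _ _)
  have hC0 : 0 ≤ C := le_max_right _ _
  refine ⟨C, hC0, fun y => ?_⟩
  have hm : (1 : ℝ) ≤ (max 1 y) ^ b := one_le_pow₀ (le_max_left _ _)
  rcases lt_or_ge y u₀ with hy | hy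
  · rw [h0 y hy]
    positivity
  · rcases le_total y y₁ with hy2 | hy2
    · calc U y ≤ U y₁ := hmono hy2
        _ = (U y₁ * Real.exp (-u₀)) * Real.exp u₀ := by
            rw [mul_assoc, ← Real.exp_add]; simp
        _ ≤ C * Real.exp y := by
            apply mul_le_mul hC2 (Real.exp_le_exp.2 hy) (Real.exp_pos _).le hC0
        _ ≤ C * (Real.exp y * (max 1 y) ^ b) := by
            apply mul_le_mul_of_nonneg_left _ hC0
            exact le_mul_of_one_le_right (Real.exp_pos _).le hm
    · have h3 := (hy₁ y hy2).1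
      have h4 : 0 < y := by linarith
      rw [div_lt_iff₀ (nu_pos h4)] at h3
      have h5 : max 1 y = y := max_eq_right (by linarith)
      rw [h5]
      refine h3.le.trans ?_
      unfold nu
      exact mul_le_mul_of_nonneg_right hC1 (by positivity)

/-- **averages over the scales** -/
theorem avg {U : ℝ → ℝ} {b : ℕ} {a u₀ : ℝ} (hmono : Monotone U) (h0 : ∀ u, u < u₀ → U u = 0)
    (hlim : Tendsto (fun u => U u / nu b u) atTop (𝓝 a)) :
    Tendsto (fun u => (∫ v in Ioi (0 : ℝ), U (u - v)) / nu b u) atTop (𝓝 a) := by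
  obtain ⟨hU, C, hC0, hC⟩ := growth hmono h0 hlim
  have key : Tendsto (fun u => ∫ v in Ioi (0 : ℝ), U (u - v) / nu b u) atTop
      (𝓝 (∫ v in Ioi (0 : ℝ), a * Real.exp (-v))) := by
    refine tendsto_integral_filter_of_dominated_convergence (fun v => C * Real.exp (-v)) ?_ ?_ ?_ ?_
    · refine Eventually.of_forall fun u => ?_
      apply Measurable.aestronglyMeasurable
      exact (hmono.measurable.comp (measurable_const.sub measurable_id)).div_const _
    · filter_upwards [eventually_ge_atTop 1] with u hu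
      refine (ae_restrict_iff' measurableSet_Ioi).2 (Eventually.of_forall fun v hv => ?_)
      have hv0 : 0 < v := hv
      have hu0 : 0 < u := by linarith
      rw [Real.norm_eq_abs, abs_of_nonneg (div_nonneg (hU _) (nu_pos hu0).le),
        div_le_iff₀ (nu_pos hu0)]
      refine (hC (u - v)).trans ?_
      have h1 : (max 1 (u - v)) ^ b ≤ u ^ b :=
        pow_le_pow_left₀ (by positivity) (max_le hu (by linarith)) b
      have h2 : Real.exp (u - v) = Real.exp (-v) * Real.exp u := by
        rw [← Real.exp_add]; congr 1; ring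
      rw [h2]
      unfold nu
      calc C * (Real.exp (-v) * Real.exp u * max 1 (u - v) ^ b)
          ≤ C * (Real.exp (-v) * Real.exp u * u ^ b) := by gcongr
        _ = C * Real.exp (-v) * (Real.exp u * u ^ b) := by ring
    · exact (integrableOn_exp_neg_Ioi 0).const_mul C
    · refine (ae_restrict_iff' measurableSet_Ioi).2 (Eventually.of_forall fun v hv => ?_)
      have h1 : Tendsto (fun u : ℝ => U (u - v) / nu b (u - v)) atTop (𝓝 a) :=
        hlim.comp (tendsto_atTop_add_const_right _ (-v) tendsto_id)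
      have h2 := h1.mul (nu_ratio b v)
      refine h2.congr' ?_
      filter_upwards [eventually_gt_atTop v, eventually_gt_atTop 0] with u hu hu0
      have h3 : nu b (u - v) ≠ 0 := (nu_pos (by linarith)).ne'
      field_simp
  have h1 : (∫ v in Ioi (0 : ℝ), a * Real.exp (-v)) = a := by
    rw [integral_const_mul, integral_exp_neg_Ioi_zero, mul_one]
  rw [h1] at key
  refine key.congr fun u => ?_
  rw [integral_div]

end Pool.Agent.X79.EQ
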