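import Pool.Agent.X79.EQ.Avg

/-!
# Weighted counting functions for a family of heights
-/

set_option autoImplicit false

namespace Pool.Agent.X79.EQ

open Filter MeasureTheory Set Topology

open Classical in
/-- the sum of the weights `w` of the points with logarithmic height `h x - f x` at most `u` -/
noncomputable def cnt {X : Type*} (h w f : X → ℝ) (u : ℝ) : ℝ :=
  ∑ᶠ x, if h x ≤ u + f x then w x else 0

/-- its average over the scales -/
noncomputable def avA {X : Type*} (h w f : X → ℝ) (u : ℝ) : ℝ :=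
  ∫ v in Ioi (0 : ℝ), cnt h w f (u - v)

/-- its double average over the scales -/
noncomputable def avQ {X : Type*} (h w f : X → ℝ) (u : ℝ) : ℝ :=
  ∫ v in Ioi (0 : ℝ), avA h w f (u - v)

/-- there are finitely many points of bounded height -/
def Fin' {X : Type*} (h : X → ℝ) : Prop := ∀ u, {x | h x ≤ u}.Finite

section

variable {X : Type*} {h : X → ℝ} (hfin : Fin' h) {w f : X → ℝ} {M : ℝ}

open Classical in
include hfin in
lemma cnt_eq (hf : ∀ x, |f x| ≤ M) {u T : ℝ} (hT : u + M ≤ T) :
    cnt h w f u = ∑ x ∈ (hfin T).toFinset, if h x ≤ u + f x then w x else 0 := by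
  unfold cnt
  apply finsum_eq_sum_of_support_subset
  intro x hx
  rw [Function.mem_support] at hx
  have h1 : h x ≤ u + f x := by
    by_contra hc
    rw [if_neg hc] at hx
    exact hx rfl
  have h2 := (abs_le.1 (hf x)).2
  simp only [Finite.coe_toFinset, mem_setOf_eq]
  linarith

include hfin in
lemma exists_min : ∃ h₀ : ℝ, ∀ x, h₀ ≤ h x := by
  have h1 : (h '' {x | h x ≤ 0}).Finite := (hfin 0).image h
  obtain ⟨m, hm⟩ := h1.bddBelow
  refine ⟨min m 0, fun x => ?_⟩
  rcases le_total (h x) 0 with hx | hx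
  · exact (min_le_left _ _).trans (hm ⟨x, hx, rfl⟩)
  · exact (min_le_right _ _).trans hx

include hfin in
lemma cnt_mono_w {w' : X → ℝ} (hf : ∀ x, |f x| ≤ M) (hw : ∀ x, w x ≤ w' x) (u : ℝ) :
    cnt h w f u ≤ cnt h w' f u := by
  classical
  rw [cnt_eq hfin hf le_rfl, cnt_eq hfin hf le_rfl]
  apply Finset.sum_le_sum
  intro x _
  split_ifs
  · exact hw x
  · exact le_rfl

include hfin in
lemma cnt_mono_f {f' : X → ℝ} {M' : ℝ} (hf : ∀ x, |f x| ≤ M) (hf' : ∀ x, |f' x| ≤ M')
    (hw : ∀ x, 0 ≤ w x) (hff : ∀ x, f x ≤ f' x) (u : ℝ) :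
    cnt h w f u ≤ cnt h w f' u := by
  classical
  rw [cnt_eq hfin hf (T := u + max M M') (by linarith [le_max_left M M']),
    cnt_eq hfin hf' (T := u + max M M') (by linarith [le_max_right M M'])]
  apply Finset.sum_le_sum
  intro x _
  by_cases h1 : h x ≤ u + f x
  · rw [if_pos h1, if_pos (h1.trans (by linarith [hff x]))]
  · rw [if_neg h1]
    split_ifs
    · exact hw x
    · exact le_rfl

include hfin in
lemma cnt_nonneg (hf : ∀ x, |f x| ≤ M) (hw : ∀ x, 0 ≤ w x) (u : ℝ) : 0 ≤ cnt h w f u := by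
  classical
  rw [cnt_eq hfin hf le_rfl]
  apply Finset.sum_nonneg
  intro x _
  split_ifs
  · exact hw x
  · exact le_rfl

include hfin in
lemma cnt_monotone (hf : ∀ x, |f x| ≤ M) (hw : ∀ x, 0 ≤ w x) : Monotone (cnt h w f) := by
  classical
  intro u u' huu
  rw [cnt_eq hfin hf (T := u' + M) (by linarith), cnt_eq hfin hf (T := u' + M) le_rfl]
  apply Finset.sum_le_sum
  intro x _
  by_cases h1 : h x ≤ u + f x
  · rw [if_pos h1, if_pos (h1.trans (by linarith))]
  · rw [if_neg h1]
    split_ifs
    · exact hw x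
    · exact le_rfl

include hfin in
lemma cnt_add {w' : X → ℝ} (hf : ∀ x, |f x| ≤ M) (u : ℝ) :
    cnt h (fun x => w x + w' x) f u = cnt h w f u + cnt h w' f u := by
  classical
  rw [cnt_eq hfin hf le_rfl, cnt_eq hfin hf le_rfl, cnt_eq hfin hf le_rfl,
    ← Finset.sum_add_distrib]
  apply Finset.sum_congr rfl
  intro x _
  split_ifs <;> simp

include hfin in
lemma cnt_smul (c : ℝ) (hf : ∀ x, |f x| ≤ M) (u : ℝ) :
    cnt h (fun x => c * w x) f u = c * cnt h w f u := by
  classical
  rw [cnt_eq hfin hf le_rfl, cnt_eq hfin hf le_rfl, Finset.mul_sum]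
  apply Finset.sum_congr rfl
  intro x _
  split_ifs <;> simp

lemma int_step (c l : ℝ) : ∫ v in Ioi (0 : ℝ), (if v ≤ l then c else 0) = c * max 0 l := by
  have h1 : (fun v : ℝ => if v ≤ l then c else 0) = (Iic l).indicator (fun _ => c) := by
    ext v
    simp [indicator, mem_Iic]
  rw [h1, setIntegral_indicator measurableSet_Iic, Ioi_inter_Iic, setIntegral_const]
  simp only [Measure.real, Real.volume_Ioc, ENNReal.toReal_ofReal', smul_eq_mul, sub_zero]
  rw [mul_comm, max_comm]

lemma int_step_integrable (c l : ℝ) :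
    IntegrableOn (fun v : ℝ => if v ≤ l then c else 0) (Ioi (0 : ℝ)) := by
  have h1 : (fun v : ℝ => if v ≤ l then c else 0) = (Iic l).indicator (fun _ => c) := by
    ext v
    simp [indicator, mem_Iic]
  rw [h1, IntegrableOn, integrable_indicator_iff measurableSet_Iic, IntegrableOn,
    Measure.restrict_restrict measurableSet_Iic, inter_comm, Ioi_inter_Iic]
  have h2 : IntegrableOn (fun _ : ℝ => c) (Icc 0 l) := continuousOn_const.integrableOn_Icc
  exact h2.mono_set Ioc_subset_Icc_self

lemma ramp_eq (l : ℝ) : (fun v : ℝ => max 0 (l - v)) = (Iic l).indicator (fun v => l - v) := by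
  ext v
  by_cases hv : v ≤ l
  · rw [indicator_of_mem (show v ∈ Iic l from hv), max_eq_right (by linarith)]
  · rw [indicator_of_notMem (show v ∉ Iic l from hv), max_eq_left (by linarith)]

lemma int_ramp (l : ℝ) : ∫ v in Ioi (0 : ℝ), max 0 (l - v) = (max 0 l) ^ 2 / 2 := by
  rw [ramp_eq, setIntegral_indicator measurableSet_Iic, Ioi_inter_Iic]
  rcases le_total l 0 with hl | hl
  · rw [Ioc_eq_empty (by linarith), max_eq_left hl]
    simp
  · rw [max_eq_right hl, ← intervalIntegral.integral_of_le hl, intervalIntegral.integral_sub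
      (by simp) (by simp)]
    simp
    ring

lemma int_ramp_integrable (l : ℝ) : IntegrableOn (fun v : ℝ => max 0 (l - v)) (Ioi (0 : ℝ)) := by
  rw [ramp_eq, IntegrableOn, integrable_indicator_iff measurableSet_Iic, IntegrableOn,
    Measure.restrict_restrict measurableSet_Iic, inter_comm, Ioi_inter_Iic]
  have h1 : IntegrableOn (fun v : ℝ => l - v) (Icc 0 l) :=
    (continuous_const.sub continuous_id).continuousOn.integrableOn_Icc
  exact h1.mono_set Ioc_subset_Icc_self

include hfin in
lemma avA_eq (hf : ∀ x, |f x| ≤ M) {u T : ℝ} (hT : u + M ≤ T) :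
    avA h w f u = ∑ x ∈ (hfin T).toFinset, w x * max 0 (u + f x - h x) := by
  classical
  unfold avA
  have h1 : ∀ v ∈ Ioi (0 : ℝ), cnt h w f (u - v) =
      ∑ x ∈ (hfin T).toFinset, (if v ≤ u + f x - h x then w x else 0) := by
    intro v hv
    have hv0 : 0 < v := hv
    rw [cnt_eq hfin hf (T := T) (by linarith)]
    apply Finset.sum_congr rfl
    intro x _
    by_cases hx : h x ≤ u - v + f x
    · rw [if_pos hx, if_pos (by linarith)]
    · rw [if_neg hx, if_neg (by intro h'; exact hx (by linarith))]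
  rw [setIntegral_congr_fun measurableSet_Ioi h1, integral_finset_sum]
  · apply Finset.sum_congr rfl
    intro x _
    rw [int_step]
  · intro x _
    exact int_step_integrable _ _

include hfin in
lemma avQ_eq (hf : ∀ x, |f x| ≤ M) {u T : ℝ} (hT : u + M ≤ T) :
    avQ h w f u = ∑ x ∈ (hfin T).toFinset, w x * ((max 0 (u + f x - h x)) ^ 2 / 2) := by
  classical
  unfold avQ
  have h1 : ∀ v ∈ Ioi (0 : ℝ), avA h w f (u - v) =
      ∑ x ∈ (hfin T).toFinset, w x * max 0 (u + f x - h x - v) := by
    intro v hv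
    have hv0 : 0 < v := hv
    rw [avA_eq hfin hf (T := T) (by linarith)]
    apply Finset.sum_congr rfl
    intro x _
    congr 2
    ring
  rw [setIntegral_congr_fun measurableSet_Ioi h1, integral_finset_sum]
  · apply Finset.sum_congr rfl
    intro x _
    rw [integral_const_mul, int_ramp]
  · intro x _
    exact (int_ramp_integrable _).const_mul _

include hfin in
/-- the limits of the averages -/
lemma avA_lim (hf : ∀ x, |f x| ≤ M) (hw : ∀ x, 0 ≤ w x) {b : ℕ} {a : ℝ}
    (hlim : Tendsto (fun u => cnt h w f u / nu b u) atTop (𝓝 a)) :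
    Tendsto (fun u => avA h w f u / nu b u) atTop (𝓝 a) := by
  classical
  obtain ⟨h₀, hh⟩ := exists_min hfin
  refine avg (u₀ := h₀ - M) (cnt_monotone hfin hf hw) (fun u hu => ?_) hlim
  rw [cnt_eq hfin hf le_rfl]
  apply Finset.sum_eq_zero
  intro x _
  rw [if_neg]
  have h2 := (abs_le.1 (hf x)).2
  have h3 := hh x
  intro h4
  linarith

include hfin in
lemma avQ_lim (hf : ∀ x, |f x| ≤ M) (hw : ∀ x, 0 ≤ w x) {b : ℕ} {a : ℝ}
    (hlim : Tendsto (fun u => cnt h w f u / nu b u) atTop (𝓝 a)) :
    Tendsto (fun u => avQ h w f u / nu b u) atTop (𝓝 a) := by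
  classical
  obtain ⟨h₀, hh⟩ := exists_min hfin
  refine avg (u₀ := h₀ - M) (U := avA h w f) ?_ (fun u hu => ?_) (avA_lim hfin hf hw hlim)
  · intro u u' huu
    rw [avA_eq hfin hf (T := u' + M) (by linarith), avA_eq hfin hf (T := u' + M) le_rfl]
    apply Finset.sum_le_sum
    intro x _
    apply mul_le_mul_of_nonneg_left _ (hw x)
    exact max_le_max le_rfl (by linarith)
  · rw [avA_eq hfin hf le_rfl]
    apply Finset.sum_eq_zero
    intro x _
    have h2 := (abs_le.1 (hf x)).2
    have h3 := hh x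
    rw [max_eq_left (by linarith), mul_zero]

include hfin in
/-- first inequality: convexity in `f` -/
lemma ineq_one {g : X → ℝ} {M' : ℝ} (hf : ∀ x, |f x| ≤ M) (hg : ∀ x, |g x| ≤ M')
    (hw : ∀ x, 0 ≤ w x) (u : ℝ) :
    avA h w f u + cnt h (fun x => w x * g x) f u ≤ avA h w (fun x => f x + g x) u := by
  classical
  have hM' : u + M ≤ u + max M (M + M') := by linarith [le_max_left M (M + M')]
  have hfg : ∀ x, |f x + g x| ≤ M + M' := fun x => (abs_add_le _ _).trans (add_le_add (hf x) (hg x))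
  rw [avA_eq hfin hf hM', cnt_eq hfin hf hM',
    avA_eq hfin hfg (T := u + max M (M + M')) (by linarith [le_max_right M (M + M')]),
    ← Finset.sum_add_distrib]
  apply Finset.sum_le_sum
  intro x _
  by_cases h1 : h x ≤ u + f x
  · rw [if_pos h1, ← mul_add]
    apply mul_le_mul_of_nonneg_left _ (hw x)
    rw [max_eq_right (by linarith)]
    have : u + f x - h x + g x = u + (f x + g x) - h x := by ring
    rw [this]
    exact le_max_right _ _
  · rw [if_neg h1, add_zero]
    apply mul_le_mul_of_nonneg_left _ (hw x)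
    rw [max_eq_left (by linarith)]
    exact le_max_left _ _

lemma second_diff (l g d : ℝ) (hg : |g| ≤ d) :
    (max 0 (l + g)) ^ 2 / 2 + (max 0 (l - g)) ^ 2 / 2 - 2 * ((max 0 l) ^ 2 / 2) ≤
      if -d ≤ l then d ^ 2 else 0 := by
  obtain ⟨h1, h2⟩ := abs_le.1 hg
  have hd : 0 ≤ d := (abs_nonneg g).trans hg
  by_cases h : -d ≤ l
  · rw [if_pos h]
    rcases le_total 0 l with hl | hl <;> rcases le_total 0 (l + g) with hg1 | hg1 <;>
      rcases le_total 0 (l - g) with hg2 | hg2 <;>
      simp only [max_eq_right, max_eq_left, hl, hg1, hg2] <;> nlinarith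
  · rw [if_neg h, max_eq_left (by linarith), max_eq_left (by linarith), max_eq_left (by linarith)]
    simp

include hfin in
/-- second inequality: the second difference is small -/
lemma ineq_two {g : X → ℝ} {d : ℝ} (hf : ∀ x, |f x| ≤ M) (hg : ∀ x, |g x| ≤ d)
    (hd : 0 ≤ d) (hw : ∀ x, 0 ≤ w x) (u : ℝ) :
    avQ h w (fun x => f x + g x) u + avQ h w (fun x => f x - g x) u - 2 * avQ h w f u ≤
      d ^ 2 * cnt h w (fun x => f x + d) u := by
  classical
  have hfg : ∀ x, |f x + g x| ≤ M + d := fun x => (abs_add_le _ _).trans (add_le_add (hf x) (hg x))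
  have hfg' : ∀ x, |f x - g x| ≤ M + d := fun x => (abs_sub _ _).trans (add_le_add (hf x) (hg x))
  have hfd : ∀ x, |f x + d| ≤ M + d := fun x =>
    (abs_add_le _ _).trans (add_le_add (hf x) (abs_of_nonneg hd).le)
  rw [avQ_eq hfin hf (T := u + (M + d)) (by linarith), avQ_eq hfin hfg le_rfl,
    avQ_eq hfin hfg' le_rfl, cnt_eq hfin hfd le_rfl, Finset.mul_sum, Finset.mul_sum,
    ← Finset.sum_add_distrib, ← Finset.sum_sub_distrib]
  apply Finset.sum_le_sum
  intro x _
  have h1 := second_diff (u + f x - h x) (g x) d (hg x)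
  have e1 : u + f x - h x + g x = u + (f x + g x) - h x := by ring
  have e2 : u + f x - h x - g x = u + (f x - g x) - h x := by ring
  rw [e1, e2] at h1
  have h2 := mul_le_mul_of_nonneg_left h1 (hw x)
  by_cases h3 : h x ≤ u + (f x + d)
  · rw [if_pos h3]
    rw [if_pos (by linarith)] at h2
    linarith
  · rw [if_neg h3]
    rw [if_neg (by intro h'; exact h3 (by linarith))] at h2
    linarith

end

end Pool.Agent.X79.EQ
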