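import Pool.Agent.X79.EQ.Good

/-!
# The limit functional
-/

set_option autoImplicit false

namespace Pool.Agent.X79.EQ

open Filter MeasureTheory Set Topology

/-- the limit functional (not normalised) -/
noncomputable def Lim {X : Type*} (h : X → ℝ) (b : ℕ) (w : X → ℝ) : ℝ :=
  limUnder atTop (fun u => cnt h w (fun _ => 0) u / nu b u)

section

variable {X : Type*} {h : X → ℝ} {F : Submodule ℝ (X → ℝ)} {b : ℕ} (H : Hyp h F b)

include H in
/-- change of the height, weights with signs -/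
theorem change_signed {w f g : X → ℝ} (hw : Good h F b w) (hf : f ∈ F) (hg : g ∈ F)
    {a a' : ℝ} (ha : Tendsto (fun u => cnt h w (fun x => f x + g x) u / nu b u) atTop (𝓝 a))
    (ha' : Tendsto (fun u => cnt h (fun x => w x * Real.exp (g x)) f u / nu b u) atTop (𝓝 a')) :
    a = a' := by
  obtain ⟨W, hW⟩ := hw.1
  set C : ℝ := |W| with hC
  have hwC : Good h F b (fun x => w x + C) := hw.add H (good_const H C)
  have hCg : Good h F b (fun _ => C) := good_const H C
  have h0 : ∀ x, 0 ≤ w x + C := fun x => by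
    have h1 := (abs_le.1 ((hW x).trans (le_abs_self W))).1
    linarith
  have hfg : (fun x => f x + g x) ∈ F := F.add_mem hf hg
  obtain ⟨M, hM⟩ := H.bdd f hf
  obtain ⟨M', hM'⟩ := H.bdd _ hfg
  obtain ⟨c₁, hc₁⟩ := hwC.2 _ hfg
  obtain ⟨c₂, hc₂⟩ := hCg.2 _ hfg
  obtain ⟨d₁, hd₁⟩ := (hwC.mul_exp H hg 1).2 f hf
  obtain ⟨d₂, hd₂⟩ := (hCg.mul_exp H hg 1).2 f hf
  simp only [one_mul] at hd₁ hd₂
  have e1 : c₁ = d₁ := change H hwC h0 hf hg hc₁ hd₁
  have e2 : c₂ = d₂ := change H hCg (fun _ => abs_nonneg _) hf hg hc₂ hd₂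
  have k1 : c₁ = a + c₂ := by
    refine tendsto_nhds_unique hc₁ ((ha.add hc₂).congr fun u => ?_)
    rw [cnt_add H.fin hM', add_div]
  have k2 : d₁ = a' + d₂ := by
    refine tendsto_nhds_unique hd₁ ((ha'.add hd₂).congr fun u => ?_)
    rw [← add_div, ← cnt_add H.fin hM]
    congr 2
    ext x
    ring
  linarith

include H in
lemma lim_zero {w : X → ℝ} (hw : Good h F b w) :
    Tendsto (fun u => cnt h w (fun _ => 0) u / nu b u) atTop (𝓝 (Lim h b w)) := by
  have h0 : (fun _ : X => (0 : ℝ)) ∈ F := F.zero_mem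
  obtain ⟨a, ha⟩ := hw.2 _ h0
  unfold Lim
  rw [ha.limUnder_eq]
  exact ha

include H in
/-- the asymptotics for all heights, in terms of one functional -/
theorem lim_all {w f : X → ℝ} (hw : Good h F b w) (hf : f ∈ F) :
    Tendsto (fun u => cnt h w f u / nu b u) atTop (𝓝 (Lim h b (fun x => w x * Real.exp (f x)))) := by
  have h0 : (fun _ : X => (0 : ℝ)) ∈ F := F.zero_mem
  obtain ⟨a, ha⟩ := hw.2 _ hf
  have h1 := hw.mul_exp H hf 1
  simp only [one_mul] at h1
  have h2 := lim_zero H h1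
  have h3 : a = Lim h b (fun x => w x * Real.exp (f x)) :=
    change_signed H hw h0 hf (by simpa using ha) h2
  rw [← h3]
  exact ha

include H in
lemma Lim_add {w w' : X → ℝ} (hw : Good h F b w) (hw' : Good h F b w') :
    Lim h b (fun x => w x + w' x) = Lim h b w + Lim h b w' := by
  refine tendsto_nhds_unique (lim_zero H (hw.add H hw')) ?_
  refine ((lim_zero H hw).add (lim_zero H hw')).congr fun u => ?_
  rw [cnt_add H.fin (M := 0) (fun _ => by simp), add_div]

include H in
lemma Lim_smul {w : X → ℝ} (hw : Good h F b w) (c : ℝ) :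
    Lim h b (fun x => c * w x) = c * Lim h b w := by
  refine tendsto_nhds_unique (lim_zero H (hw.smul H c)) ?_
  refine ((lim_zero H hw).const_mul c).congr fun u => ?_
  rw [cnt_smul H.fin c (M := 0) (fun _ => by simp), mul_div_assoc]

include H in
lemma Lim_nonneg {w : X → ℝ} (hw : Good h F b w) (h0 : ∀ x, 0 ≤ w x) : 0 ≤ Lim h b w := by
  refine ge_of_tendsto (lim_zero H hw) ?_
  filter_upwards [ev_pos (b := b)] with u hu
  exact div_nonneg (cnt_nonneg H.fin (M := 0) (fun _ => by simp) h0 u) hu.le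

end

section

variable {X : Type*} {h : X → ℝ}

lemma cnt_set (w f : X → ℝ) (u : ℝ) : ∑ᶠ x ∈ {x | h x ≤ u + f x}, w x = cnt h w f u := by
  unfold cnt
  rw [finsum_mem_def]
  apply finsum_congr
  intro x
  simp only [indicator, mem_setOf_eq]

lemma cnt_ncard (hfin : Fin' h) {f : X → ℝ} {M : ℝ} (hf : ∀ x, |f x| ≤ M) (u : ℝ) :
    (({x | h x ≤ u + f x}.ncard : ℕ) : ℝ) = cnt h (fun _ => 1) f u := by
  have hs : {x | h x ≤ u + f x}.Finite := (hfin (u + M)).subset fun x hx => by
    have h1 : h x ≤ u + f x := hx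
    have := (abs_le.1 (hf x)).2
    show h x ≤ u + M
    linarith
  rw [← cnt_set, finsum_mem_eq_finite_toFinset_sum _ hs, Set.ncard_eq_toFinset_card _ hs]
  simp

end

end Pool.Agent.X79.EQ
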