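import Pool.Agent.X79.EQ.Count

/-!
# Asymptotics for all heights imply the existence of all means

`F` is a vector space of bounded functions on `X` which contains the constants; the points with
`h ≤ u + f` have an asymptotic count for all `f` in `F`. Then all continuous functions of finitely many
elements of `F` have a mean with respect to all these heights.
-/

set_option autoImplicit false

namespace Pool.Agent.X79.EQ

open Filter MeasureTheory Set Topology

/-- the hypothesis: asymptotic counts for all heights -/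
structure Hyp {X : Type*} (h : X → ℝ) (F : Submodule ℝ (X → ℝ)) (b : ℕ) : Prop where
  fin : Fin' h
  const : (fun _ => (1 : ℝ)) ∈ F
  bdd : ∀ f ∈ F, ∃ M : ℝ, ∀ x, |f x| ≤ M
  lim : ∀ f ∈ F, ∃ a : ℝ, Tendsto (fun u => cnt h (fun _ => 1) f u / nu b u) atTop (𝓝 a)

/-- the weighted counts have limits for all heights -/
def Good {X : Type*} (h : X → ℝ) (F : Submodule ℝ (X → ℝ)) (b : ℕ) (w : X → ℝ) : Prop :=
  (∃ W : ℝ, ∀ x, |w x| ≤ W) ∧
    ∀ f ∈ F, ∃ a : ℝ, Tendsto (fun u => cnt h w f u / nu b u) atTop (𝓝 a)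

section

variable {X : Type*} {h : X → ℝ} {F : Submodule ℝ (X → ℝ)} {b : ℕ} (H : Hyp h F b)

include H in
lemma const_mem (c : ℝ) : (fun _ => c) ∈ F := by
  have := F.smul_mem c H.const
  convert this using 1
  ext x
  simp

include H in
lemma good_one : Good h F b (fun _ => 1) := ⟨⟨1, fun _ => by simp⟩, H.lim⟩

include H in
lemma Good.smul {w : X → ℝ} (hw : Good h F b w) (c : ℝ) : Good h F b (fun x => c * w x) := by
  obtain ⟨⟨W, hW⟩, hl⟩ := hw
  refine ⟨⟨|c| * W, fun x => ?_⟩, fun f hf => ?_⟩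
  · rw [abs_mul]
    exact mul_le_mul_of_nonneg_left (hW x) (abs_nonneg _)
  · obtain ⟨a, ha⟩ := hl f hf
    obtain ⟨M, hM⟩ := H.bdd f hf
    refine ⟨c * a, ?_⟩
    have := ha.const_mul c
    refine this.congr fun u => ?_
    rw [cnt_smul H.fin c hM, mul_div_assoc]

include H in
lemma Good.add {w w' : X → ℝ} (hw : Good h F b w) (hw' : Good h F b w') :
    Good h F b (fun x => w x + w' x) := by
  obtain ⟨⟨W, hW⟩, hl⟩ := hw
  obtain ⟨⟨W', hW'⟩, hl'⟩ := hw'
  refine ⟨⟨W + W', fun x => (abs_add_le _ _).trans (add_le_add (hW x) (hW' x))⟩, fun f hf => ?_⟩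
  obtain ⟨a, ha⟩ := hl f hf
  obtain ⟨a', ha'⟩ := hl' f hf
  obtain ⟨M, hM⟩ := H.bdd f hf
  refine ⟨a + a', ?_⟩
  refine (ha.add ha').congr fun u => ?_
  rw [cnt_add H.fin hM, add_div]

include H in
lemma good_const (c : ℝ) : Good h F b (fun _ => c) := by
  have := (good_one H).smul H c
  simpa using this

/-- convergence of a function squeezed into short intervals -/
lemma exists_lim {D : ℝ → ℝ} (hD : ∀ ε : ℝ, 0 < ε → ∃ l r : ℝ, r - l ≤ ε ∧
    ∀ᶠ u in atTop, l ≤ D u ∧ D u ≤ r) : ∃ a : ℝ, Tendsto D atTop (𝓝 a) := by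
  apply cauchySeq_tendsto_of_complete
  rw [Metric.cauchySeq_iff]
  intro ε hε
  obtain ⟨l, r, hlr, hev⟩ := hD (ε / 2) (by positivity)
  obtain ⟨N, hN⟩ := eventually_atTop.1 hev
  refine ⟨N, fun m hm n hn => ?_⟩
  obtain ⟨h1, h2⟩ := hN m hm
  obtain ⟨h3, h4⟩ := hN n hn
  rw [Real.dist_eq, abs_lt]
  constructor <;> linarith

lemma ev_pos : ∀ᶠ u : ℝ in atTop, 0 < nu b u := by
  filter_upwards [eventually_gt_atTop 0] with u hu
  exact nu_pos hu

include H in
/-- the main step, nonnegative weights -/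
lemma Good.mul_nonneg {w g : X → ℝ} (hw : Good h F b w) (hw0 : ∀ x, 0 ≤ w x) (hg : g ∈ F) :
    Good h F b (fun x => w x * g x) := by
  obtain ⟨⟨W, hW⟩, hl⟩ := hw
  obtain ⟨G', hG'⟩ := H.bdd g hg
  set G : ℝ := max G' 1 with hGdef
  have hG : ∀ x, |g x| ≤ G := fun x => (hG' x).trans (le_max_left _ _)
  have hG1 : 1 ≤ G := le_max_right _ _
  refine ⟨⟨W * G, fun x => ?_⟩, fun f hf => ?_⟩
  · rw [abs_mul]
    exact mul_le_mul (hW x) (hG x) (abs_nonneg _) ((abs_nonneg _).trans (hW x))
  obtain ⟨M, hM⟩ := H.bdd f hf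
  have hmem : ∀ t : ℝ, (fun x => f x + t * g x) ∈ F := fun t => F.add_mem hf (F.smul_mem t hg)
  choose α hα using fun t : ℝ => hl _ (hmem t)
  have hα0 : Tendsto (fun u => cnt h w f u / nu b u) atTop (𝓝 (α 0)) := by
    have := hα 0
    simpa using this
  obtain ⟨κ, hκ⟩ := hl _ (F.add_mem hf (const_mem H G))
  have hbt : ∀ t : ℝ, ∀ x, |f x + t * g x| ≤ M + |t| * G := fun t x =>
    (abs_add_le _ _).trans (add_le_add (hM x) (by
      rw [abs_mul]; exact mul_le_mul_of_nonneg_left (hG x) (abs_nonneg _)))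
  have htg : ∀ t : ℝ, ∀ x, |t * g x| ≤ |t| * G := fun t x => by
    rw [abs_mul]; exact mul_le_mul_of_nonneg_left (hG x) (abs_nonneg _)
  have hκ0 : 0 ≤ κ := by
    refine ge_of_tendsto hκ ?_
    filter_upwards [ev_pos (b := b)] with u hu
    refine div_nonneg (cnt_nonneg (M := M + G) H.fin (fun x => ?_) hw0 u) hu.le
    exact (abs_add_le _ _).trans (add_le_add (hM x) (abs_of_nonneg (by linarith)).le)
  -- convexity
  have hone : ∀ t : ℝ, ∀ᶠ u in atTop, avA h w f u / nu b u +
      t * (cnt h (fun x => w x * g x) f u / nu b u) ≤ avA h w (fun x => f x + t * g x) u / nu b u := by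
    intro t
    filter_upwards [ev_pos (b := b)] with u hu
    have h1 := ineq_one H.fin hM (htg t) hw0 u
    have h2 : cnt h (fun x => w x * (t * g x)) f u = t * cnt h (fun x => w x * g x) f u := by
      rw [← cnt_smul H.fin t hM]
      congr 1
      ext x
      ring
    rw [h2] at h1
    rw [← mul_div_assoc, ← add_div]
    exact div_le_div_of_nonneg_right h1 hu.le
  have hA0 := avA_lim H.fin hM hw0 hα0
  have hA : ∀ t : ℝ, Tendsto (fun u => avA h w (fun x => f x + t * g x) u / nu b u) atTop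
      (𝓝 (α t)) := fun t => avA_lim H.fin (hbt t) hw0 (hα t)
  have hQ0 := avQ_lim H.fin hM hw0 hα0
  have hQ : ∀ t : ℝ, Tendsto (fun u => avQ h w (fun x => f x + t * g x) u / nu b u) atTop
      (𝓝 (α t)) := fun t => avQ_lim H.fin (hbt t) hw0 (hα t)
  -- second differences
  have htwo : ∀ t : ℝ, 0 < t → t ≤ 1 → α t + α (-t) - 2 * α 0 ≤ (t * G) ^ 2 * κ := by
    intro t ht ht1
    have hlim1 := ((hQ t).add (hQ (-t))).sub (hQ0.const_mul 2)
    have hlim2 := hκ.const_mul ((t * G) ^ 2)
    refine le_of_tendsto_of_tendsto hlim1 hlim2 ?_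
    filter_upwards [ev_pos (b := b)] with u hu
    have htG : 0 ≤ t * G := by positivity
    have h1 := ineq_two H.fin hM (g := fun x => t * g x) (d := t * G) (fun x => by
      have := htg t x
      rwa [abs_of_pos ht] at this) htG hw0 u
    have h2 : cnt h w (fun x => f x + t * G) u ≤ cnt h w (fun x => f x + G) u := by
      refine cnt_mono_f H.fin (M := M + t * G) (M' := M + G) (fun x => ?_) (fun x => ?_) hw0
        (fun x => ?_) u
      · exact (abs_add_le _ _).trans (add_le_add (hM x) (abs_of_nonneg htG).le)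
      · exact (abs_add_le _ _).trans (add_le_add (hM x) (abs_of_nonneg (by linarith)).le)
      · nlinarith
    have h3 : (fun x => f x - t * g x) = fun x => f x + -t * g x := by
      ext x; ring
    rw [h3] at h1
    have h4 : avQ h w (fun x => f x + t * g x) u + avQ h w (fun x => f x + -t * g x) u -
        2 * avQ h w f u ≤ (t * G) ^ 2 * cnt h w (fun x => f x + G) u :=
      h1.trans (mul_le_mul_of_nonneg_left h2 (by positivity))
    calc avQ h w (fun x => f x + t * g x) u / nu b u + avQ h w (fun x => f x + -t * g x) u / nu b u -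
          2 * (avQ h w f u / nu b u)
        = (avQ h w (fun x => f x + t * g x) u + avQ h w (fun x => f x + -t * g x) u -
          2 * avQ h w f u) / nu b u := by ring
      _ ≤ ((t * G) ^ 2 * cnt h w (fun x => f x + G) u) / nu b u :=
          div_le_div_of_nonneg_right h4 hu.le
      _ = (t * G) ^ 2 * (cnt h w (fun x => f x + G) u / nu b u) := by ring
  apply exists_lim
  intro ε hε
  -- choice of `t`
  set t : ℝ := min 1 (ε / (3 * (G ^ 2 * (κ + 1)))) with ht
  have hden : 0 < 3 * (G ^ 2 * (κ + 1)) := by positivity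
  have ht0 : 0 < t := lt_min one_pos (by positivity)
  have ht1 : t ≤ 1 := min_le_left _ _
  have htε : t * (G ^ 2 * κ) ≤ ε / 3 := by
    have h1 : t ≤ ε / (3 * (G ^ 2 * (κ + 1))) := min_le_right _ _
    rw [le_div_iff₀ hden] at h1
    have h2 : t * (G ^ 2 * κ) ≤ t * (G ^ 2 * (κ + 1)) := by
      apply mul_le_mul_of_nonneg_left _ ht0.le
      apply mul_le_mul_of_nonneg_left _ (by positivity)
      linarith
    linarith
  refine ⟨(α 0 - α (-t)) / t - ε / 3, (α t - α 0) / t + ε / 3, ?_, ?_⟩
  · have h1 := htwo t ht0 ht1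
    have h2 : (α t - α 0) / t - (α 0 - α (-t)) / t ≤ t * (G ^ 2 * κ) := by
      rw [← sub_div, div_le_iff₀ ht0]
      nlinarith
    linarith
  · have he : 0 < t * (ε / 3) := by positivity
    have e1 : ∀ᶠ u in atTop, α 0 - t * (ε / 3) / 2 < avA h w f u / nu b u :=
      hA0.eventually (lt_mem_nhds (by linarith))
    have e2 : ∀ᶠ u in atTop, avA h w f u / nu b u < α 0 + t * (ε / 3) / 2 :=
      hA0.eventually (gt_mem_nhds (by linarith))
    have e3 : ∀ᶠ u in atTop, avA h w (fun x => f x + t * g x) u / nu b u < α t + t * (ε / 3) / 2 :=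
      (hA t).eventually (gt_mem_nhds (by linarith))
    have e4 : ∀ᶠ u in atTop, avA h w (fun x => f x + -t * g x) u / nu b u <
        α (-t) + t * (ε / 3) / 2 := (hA (-t)).eventually (gt_mem_nhds (by linarith))
    filter_upwards [e1, e2, e3, e4, hone t, hone (-t)] with u h1 h2 h3 h4 h5 h6
    constructor
    · rw [div_sub' ht0.ne', div_le_iff₀ ht0]
      nlinarith
    · rw [div_add' _ _ _ ht0.ne', le_div_iff₀ ht0]
      nlinarith

include H in
/-- the main step -/
lemma Good.mul {w g : X → ℝ} (hw : Good h F b w) (hg : g ∈ F) :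
    Good h F b (fun x => w x * g x) := by
  obtain ⟨W, hW⟩ := hw.1
  have h1 : Good h F b (fun x => w x + |W|) := hw.add H (good_const H |W|)
  have h2 := h1.mul_nonneg H (fun x => by
    have := (abs_le.1 (hW x)).1
    have := le_abs_self W
    linarith) hg
  have h3 := (good_const H |W|).mul_nonneg H (fun _ => abs_nonneg _) hg
  have h4 := h2.add H (h3.smul H (-1))
  convert h4 using 2 with x
  ring

include H in
/-- uniform limits -/
lemma Good.unif {w : X → ℝ} (hb : ∃ W : ℝ, ∀ x, |w x| ≤ W)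
    (hu : ∀ ε : ℝ, 0 < ε → ∃ w' : X → ℝ, Good h F b w' ∧ ∀ x, |w x - w' x| ≤ ε) :
    Good h F b w := by
  refine ⟨hb, fun f hf => ?_⟩
  obtain ⟨M, hM⟩ := H.bdd f hf
  obtain ⟨c, hc⟩ := H.lim f hf
  have hc0 : 0 ≤ c := by
    refine ge_of_tendsto hc ?_
    filter_upwards [ev_pos (b := b)] with u hu
    exact div_nonneg (cnt_nonneg H.fin hM (fun _ => zero_le_one) u) hu.le
  apply exists_lim
  intro ε hε
  set η : ℝ := ε / (4 * (c + 1)) with hη
  have hη0 : 0 < η := by positivity
  obtain ⟨w', hw', hww⟩ := hu η hη0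
  obtain ⟨a, ha⟩ := hw'.2 f hf
  refine ⟨a - ε / 2, a + ε / 2, by linarith, ?_⟩
  have e1 : ∀ᶠ u in atTop, cnt h (fun _ => 1) f u / nu b u < c + 1 :=
    hc.eventually (gt_mem_nhds (by linarith))
  have e2 : ∀ᶠ u in atTop, a - ε / 4 < cnt h w' f u / nu b u :=
    ha.eventually (lt_mem_nhds (by linarith))
  have e3 : ∀ᶠ u in atTop, cnt h w' f u / nu b u < a + ε / 4 :=
    ha.eventually (gt_mem_nhds (by linarith))
  filter_upwards [e1, e2, e3, ev_pos (b := b)] with u h1 h2 h3 hu
  have k1 : cnt h w f u ≤ cnt h w' f u + η * cnt h (fun _ => 1) f u := by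
    rw [← cnt_smul H.fin η hM, ← cnt_add H.fin hM]
    refine cnt_mono_w H.fin hM (fun x => ?_) u
    have := (abs_le.1 (hww x)).2
    linarith
  have k2 : cnt h w' f u ≤ cnt h w f u + η * cnt h (fun _ => 1) f u := by
    rw [← cnt_smul H.fin η hM, ← cnt_add H.fin hM]
    refine cnt_mono_w H.fin hM (fun x => ?_) u
    have := (abs_le.1 (hww x)).1
    linarith
  have k3 : η * (cnt h (fun _ => 1) f u / nu b u) ≤ ε / 4 := by
    have : η * (c + 1) = ε / 4 := by
      rw [hη]; field_simp
    rw [← this]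
    exact mul_le_mul_of_nonneg_left h1.le hη0.le
  have k4 : cnt h w f u / nu b u ≤ cnt h w' f u / nu b u +
      η * (cnt h (fun _ => 1) f u / nu b u) := by
    rw [← mul_div_assoc, ← add_div]
    exact div_le_div_of_nonneg_right k1 hu.le
  have k5 : cnt h w' f u / nu b u ≤ cnt h w f u / nu b u +
      η * (cnt h (fun _ => 1) f u / nu b u) := by
    rw [← mul_div_assoc, ← add_div]
    exact div_le_div_of_nonneg_right k2 hu.le
  constructor <;> linarith

include H in
/-- **multiplication by continuous functions of elements of `F`** -/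
theorem Good.mul_cont {w : X → ℝ} (hw : Good h F b w) {k : ℕ} {g : Fin k → X → ℝ}
    (hg : ∀ i, g i ∈ F) {Φ : (Fin k → ℝ) → ℝ} (hΦ : Continuous Φ) :
    Good h F b (fun x => w x * Φ (fun i => g i x)) := by
  choose M' hM' using fun i => H.bdd (g i) (hg i)
  obtain ⟨M, hM0, hM⟩ : ∃ M : ℝ, 0 ≤ M ∧ ∀ i x, |g i x| ≤ M := by
    refine ⟨∑ i, |M' i|, Finset.sum_nonneg fun _ _ => abs_nonneg _, fun i x => ?_⟩
    refine (hM' i x).trans ((le_abs_self _).trans ?_)
    exact Finset.single_le_sum (f := fun i => |M' i|) (fun _ _ => abs_nonneg _) (Finset.mem_univ i)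
  let B : Set (Fin k → ℝ) := Metric.closedBall 0 M
  have hB : IsCompact B := isCompact_closedBall _ _
  have : CompactSpace B := isCompact_iff_compactSpace.1 hB
  have hmem : ∀ x, (fun i => g i x) ∈ B := by
    intro x
    rw [Metric.mem_closedBall, dist_zero_right, pi_norm_le_iff_of_nonneg hM0]
    intro i
    exact hM i x
  let G : X → B := fun x => ⟨fun i => g i x, hmem x⟩
  let co : Fin k → C(B, ℝ) := fun i => ⟨fun y => y.1 i, (continuous_apply i).comp continuous_subtype_val⟩
  let S : Subalgebra ℝ C(B, ℝ) := Algebra.adjoin ℝ (Set.range co)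
  have hS : S.SeparatesPoints := by
    intro y y' hyy
    have : ∃ i, y.1 i ≠ y'.1 i := by
      by_contra hc
      push Not at hc
      exact hyy (Subtype.ext (funext hc))
    obtain ⟨i, hi⟩ := this
    exact ⟨_, ⟨co i, Algebra.subset_adjoin ⟨i, rfl⟩, rfl⟩, hi⟩
  -- all elements of the algebra are multipliers
  have hmul : ∀ q ∈ S, ∀ w : X → ℝ, Good h F b w → Good h F b (fun x => w x * q (G x)) := by
    intro q hq
    induction hq using Algebra.adjoin_induction with
    | mem q hq =>
      obtain ⟨i, rfl⟩ := hq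
      intro w hw
      exact hw.mul H (hg i)
    | algebraMap r =>
      intro w hw
      have := hw.smul H r
      convert this using 2 with x
      simp [Algebra.algebraMap_eq_smul_one, mul_comm]
    | add q₁ q₂ _ _ h1 h2 =>
      intro w hw
      have := (h1 w hw).add H (h2 w hw)
      convert this using 2 with x
      simp [mul_add]
    | mul q₁ q₂ _ _ h1 h2 =>
      intro w hw
      have := h2 _ (h1 w hw)
      convert this using 2 with x
      simp [mul_assoc]
  have hΦc : Continuous (fun y : B => Φ y.1) := hΦ.comp continuous_subtype_val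
  obtain ⟨W', hW'⟩ := hw.1
  set W : ℝ := max W' 1 with hW1
  have hW : ∀ x, |w x| ≤ W := fun x => (hW' x).trans (le_max_left _ _)
  have hW0 : 0 < W := lt_of_lt_of_le one_pos (le_max_right _ _)
  refine Good.unif H ?_ ?_
  · obtain ⟨C, hC⟩ := hB.exists_bound_of_continuousOn hΦ.continuousOn
    refine ⟨W * C, fun x => ?_⟩
    rw [abs_mul]
    exact mul_le_mul (hW x) (hC _ (hmem x)) (abs_nonneg _) hW0.le
  · intro ε hε
    obtain ⟨q, hq⟩ := ContinuousMap.exists_mem_subalgebra_near_continuous_of_separatesPoints S hS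
      (fun y : B => Φ y.1) hΦc (ε / W) (by positivity)
    refine ⟨fun x => w x * (q : C(B, ℝ)) (G x), hmul q q.2 _ hw, fun x => ?_⟩
    have h1 := hq (G x)
    rw [Real.norm_eq_abs, abs_sub_comm] at h1
    rw [← mul_sub, abs_mul]
    calc |w x| * |Φ (fun i => g i x) - (q : C(B, ℝ)) (G x)| ≤ W * (ε / W) :=
          mul_le_mul (hW x) h1.le (abs_nonneg _) hW0.le
      _ = ε := by field_simp

include H in
/-- **continuous functions of elements of `F`** -/
theorem good_cont {k : ℕ} {g : Fin k → X → ℝ} (hg : ∀ i, g i ∈ F) {Φ : (Fin k → ℝ) → ℝ}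
    (hΦ : Continuous Φ) : Good h F b (fun x => Φ (fun i => g i x)) := by
  have := (good_one H).mul_cont H hg hΦ
  simpa using this

include H in
lemma Good.mul_exp {w g : X → ℝ} (hw : Good h F b w) (hg : g ∈ F) (c : ℝ) :
    Good h F b (fun x => w x * Real.exp (c * g x)) :=
  hw.mul_cont H (g := fun _ : Fin 1 => g) (fun _ => hg) (Φ := fun y => Real.exp (c * y 0))
    (by fun_prop)

lemma exp_ineq {y : ℝ} (hy : |y| ≤ 1) : 1 - y ^ 2 ≤ Real.exp (-y) * (1 + y) := by
  have h1 := Real.add_one_le_exp (-y)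
  have h2 := (abs_le.1 hy).1
  nlinarith

include H in
/-- one small step -/
lemma step {w f g : X → ℝ} {W G κ : ℝ} (hw : Good h F b w) (hw0 : ∀ x, 0 ≤ w x)
    (hW : ∀ x, w x ≤ W) (hf : f ∈ F) (hg : g ∈ F) (hG : ∀ x, |g x| ≤ G) (hG1 : 1 ≤ G)
    (hκ : Tendsto (fun u => cnt h (fun _ => 1) (fun x => f x + G) u / nu b u) atTop (𝓝 κ))
    {t s β β' : ℝ} (ht0 : 0 ≤ t) (ht1 : t ≤ 1) (hs : |s| * G ≤ 1)
    (hβ : Tendsto (fun u => cnt h (fun x => w x * Real.exp ((1 - t) * g x))
      (fun x => f x + t * g x) u / nu b u) atTop (𝓝 β))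
    (hβ' : Tendsto (fun u => cnt h (fun x => w x * Real.exp ((1 - (t + s)) * g x))
      (fun x => f x + (t + s) * g x) u / nu b u) atTop (𝓝 β')) :
    β - s ^ 2 * (G ^ 2 * (W * Real.exp G) * κ) ≤ β' := by
  obtain ⟨M, hM⟩ := H.bdd f hf
  set f' : X → ℝ := fun x => f x + t * g x with hf'
  have hf'F : f' ∈ F := F.add_mem hf (F.smul_mem t hg)
  have hbf' : ∀ x, |f' x| ≤ M + G := fun x => by
    refine (abs_add_le _ _).trans (add_le_add (hM x) ?_)
    rw [abs_mul, abs_of_nonneg ht0]
    calc t * |g x| ≤ 1 * G := mul_le_mul ht1 (hG x) (abs_nonneg _) zero_le_one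
      _ = G := one_mul G
  set P : X → ℝ := fun x => w x * Real.exp ((1 - t) * g x) with hP
  set P' : X → ℝ := fun x => w x * Real.exp ((1 - (t + s)) * g x) with hP'
  have hPg : Good h F b P := hw.mul_exp H hg _
  have hPg' : Good h F b P' := hw.mul_exp H hg _
  have hP'0 : ∀ x, 0 ≤ P' x := fun x => mul_nonneg (hw0 x) (Real.exp_pos _).le
  obtain ⟨γ, hγ⟩ := hPg'.2 f' hf'F
  obtain ⟨δ, hδ⟩ := (hPg'.mul H (F.smul_mem s hg)).2 f' hf'F
  have hsg : ∀ x, |s * g x| ≤ 1 := fun x => by
    rw [abs_mul]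
    exact (mul_le_mul_of_nonneg_left (hG x) (abs_nonneg _)).trans hs
  have hA := avA_lim H.fin hbf' hP'0 hγ
  have hf's : (fun x => f x + (t + s) * g x) = fun x => f' x + s * g x := by
    ext x
    simp only [hf']
    ring
  rw [hf's] at hβ'
  have hbf's : ∀ x, |f' x + s * g x| ≤ M + G + 1 := fun x =>
    (abs_add_le _ _).trans (add_le_add (hbf' x) (hsg x))
  have hA' := avA_lim H.fin hbf's hP'0 hβ'
  have h1 : γ + δ ≤ β' := by
    refine le_of_tendsto_of_tendsto (hA.add hδ) hA' ?_
    filter_upwards [ev_pos (b := b)] with u hu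
    rw [← add_div]
    exact div_le_div_of_nonneg_right (ineq_one H.fin hbf' hsg hP'0 u) hu.le
  have h2 : β - s ^ 2 * (G ^ 2 * (W * Real.exp G)) * κ ≤ γ + δ := by
    refine le_of_tendsto_of_tendsto (hβ.sub (hκ.const_mul (s ^ 2 * (G ^ 2 * (W * Real.exp G)))))
      (hγ.add hδ) ?_
    filter_upwards [ev_pos (b := b)] with u hu
    have hpt : ∀ x, P x ≤ P' x + P' x * (s * g x) + s ^ 2 * (G ^ 2 * (W * Real.exp G)) * 1 := by
      intro x
      have e1 : P' x = P x * Real.exp (-(s * g x)) := by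
        simp only [hP, hP']
        rw [mul_assoc, ← Real.exp_add]
        congr 2
        ring
      have e2 := exp_ineq (hsg x)
      have hPx0 : 0 ≤ P x := mul_nonneg (hw0 x) (Real.exp_pos _).le
      have hPx : P x ≤ W * Real.exp G := by
        simp only [hP]
        refine mul_le_mul (hW x) (Real.exp_le_exp.2 ?_) (Real.exp_pos _).le ((hw0 x).trans (hW x))
        calc (1 - t) * g x ≤ (1 - t) * G :=
              mul_le_mul_of_nonneg_left ((le_abs_self _).trans (hG x)) (by linarith)
          _ ≤ G := by nlinarith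
      have e3 : P x * (1 - (s * g x) ^ 2) ≤ P' x + P' x * (s * g x) := by
        calc P x * (1 - (s * g x) ^ 2) ≤ P x * (Real.exp (-(s * g x)) * (1 + s * g x)) :=
              mul_le_mul_of_nonneg_left e2 hPx0
          _ = P' x + P' x * (s * g x) := by rw [e1]; ring
      have e4 : (s * g x) ^ 2 ≤ s ^ 2 * G ^ 2 := by
        rw [mul_pow]
        apply mul_le_mul_of_nonneg_left _ (sq_nonneg s)
        rw [← sq_abs]
        exact pow_le_pow_left₀ (abs_nonneg _) (hG x) 2
      have e5 : P x * (s * g x) ^ 2 ≤ (W * Real.exp G) * (s ^ 2 * G ^ 2) :=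
        mul_le_mul hPx e4 (sq_nonneg _) (hPx0.trans hPx)
      nlinarith
    have hcnt : cnt h P f' u ≤ cnt h P' f' u + cnt h (fun x => P' x * (s * g x)) f' u +
        s ^ 2 * (G ^ 2 * (W * Real.exp G)) * cnt h (fun _ => 1) f' u := by
      rw [← cnt_smul H.fin _ hbf', ← cnt_add H.fin hbf', ← cnt_add H.fin hbf']
      exact cnt_mono_w H.fin hbf' hpt u
    have hW0 : 0 ≤ s ^ 2 * (G ^ 2 * (W * Real.exp G)) ∨ IsEmpty X := by
      by_cases hX : IsEmpty X
      · exact Or.inr hX
      · rw [not_isEmpty_iff] at hX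
        obtain ⟨x⟩ := hX
        have : 0 ≤ W := (hw0 x).trans (hW x)
        exact Or.inl (by positivity)
    have hmono : cnt h (fun _ => 1) f' u ≤ cnt h (fun _ => 1) (fun x => f x + G) u := by
      refine cnt_mono_f H.fin hbf' (M' := M + G) (fun x => ?_) (fun _ => zero_le_one) (fun x => ?_) u
      · exact (abs_add_le _ _).trans (add_le_add (hM x) (abs_of_nonneg (by linarith)).le)
      · simp only [hf']
        have : t * g x ≤ G := by
          calc t * g x ≤ t * G := mul_le_mul_of_nonneg_left ((le_abs_self _).trans (hG x)) ht0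
            _ ≤ G := by nlinarith
        linarith
    have hfin : cnt h P f' u ≤ cnt h P' f' u + cnt h (fun x => P' x * (s * g x)) f' u +
        s ^ 2 * (G ^ 2 * (W * Real.exp G)) * cnt h (fun _ => 1) (fun x => f x + G) u := by
      rcases hW0 with hW0 | hX
      · exact hcnt.trans (by
          have := mul_le_mul_of_nonneg_left hmono hW0
          linarith)
      · have hz : ∀ w f : X → ℝ, cnt h w f u = 0 := by
          intro w f
          unfold cnt
          exact finsum_of_isEmpty _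
        simp [hz]
    rw [sub_le_iff_le_add, ← mul_div_assoc, ← add_div, ← add_div]
    exact div_le_div_of_nonneg_right hfin hu.le
  calc β - s ^ 2 * (G ^ 2 * (W * Real.exp G) * κ) = β - s ^ 2 * (G ^ 2 * (W * Real.exp G)) * κ := by
        ring
    _ ≤ γ + δ := h2
    _ ≤ β' := h1

include H in
/-- **change of the height**: the weighted count for the height `h - (f + g)` is the count with the
weights `w exp(g)` for the height `h - f` -/
theorem change {w f g : X → ℝ} (hw : Good h F b w) (hw0 : ∀ x, 0 ≤ w x) (hf : f ∈ F) (hg : g ∈ F)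
    {a a' : ℝ} (ha : Tendsto (fun u => cnt h w (fun x => f x + g x) u / nu b u) atTop (𝓝 a))
    (ha' : Tendsto (fun u => cnt h (fun x => w x * Real.exp (g x)) f u / nu b u) atTop (𝓝 a')) :
    a = a' := by
  obtain ⟨W, hW'⟩ := hw.1
  have hW : ∀ x, w x ≤ W := fun x => (le_abs_self _).trans (hW' x)
  obtain ⟨G', hG'⟩ := H.bdd g hg
  set G : ℝ := max G' 1 with hGdef
  have hG : ∀ x, |g x| ≤ G := fun x => (hG' x).trans (le_max_left _ _)
  have hG1 : 1 ≤ G := le_max_right _ _
  obtain ⟨κ, hκ⟩ := H.lim _ (F.add_mem hf (const_mem H G))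
  have hex : ∀ t : ℝ, ∃ β : ℝ, Tendsto (fun u => cnt h (fun x => w x * Real.exp ((1 - t) * g x))
      (fun x => f x + t * g x) u / nu b u) atTop (𝓝 β) := fun t =>
    (hw.mul_exp H hg (1 - t)).2 _ (F.add_mem hf (F.smul_mem t hg))
  choose β hβ using hex
  have hb0 : β 0 = a' := by
    refine tendsto_nhds_unique (hβ 0) ?_
    simpa using ha'
  have hb1 : β 1 = a := by
    refine tendsto_nhds_unique (hβ 1) ?_
    simpa using ha
  rw [← hb0, ← hb1]
  set C : ℝ := G ^ 2 * (W * Real.exp G) * κ with hC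
  have hstep : ∀ t s : ℝ, 0 ≤ t → t ≤ 1 → |s| * G ≤ 1 → β t - s ^ 2 * C ≤ β (t + s) :=
    fun t s ht0 ht1 hs => step H hw hw0 hW hf hg hG hG1 hκ ht0 ht1 hs (hβ t) (hβ (t + s))
  -- partition of the interval
  have hn : ∀ n : ℕ, G ≤ n → |β 1 - β 0| ≤ C / n := by
    intro n hn
    have hn0 : (0 : ℝ) < n := by linarith
    have hs : |(1 / n : ℝ)| * G ≤ 1 := by
      rw [abs_of_pos (by positivity), one_div, inv_mul_le_iff₀ hn0, mul_one]
      exact hn
    have hind : ∀ k : ℕ, k ≤ n → β 0 - k * (C / n ^ 2) ≤ β (k / n) ∧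
        β (k / n) - k * (C / n ^ 2) ≤ β 0 := by
      intro k
      induction k with
      | zero => intro _; simp
      | succ k ih =>
        intro hk
        obtain ⟨h1, h2⟩ := ih (by omega)
        have hk0 : (0 : ℝ) ≤ k / n := by positivity
        have hkn : ((k : ℝ) + 1) / n ≤ 1 := by
          rw [div_le_one hn0]
          exact_mod_cast hk
        have hkn' : (k : ℝ) / n ≤ 1 := by
          refine le_trans ?_ hkn
          apply div_le_div_of_nonneg_right _ hn0.le
          linarith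
        have e1 : (k : ℝ) / n + 1 / n = ((k + 1 : ℕ) : ℝ) / n := by
          push_cast; ring
        have e2 : ((k + 1 : ℕ) : ℝ) / n + -(1 / n) = (k : ℝ) / n := by
          push_cast; ring
        have h3 := hstep (k / n) (1 / n) hk0 hkn' hs
        rw [e1] at h3
        have h4 := hstep (((k + 1 : ℕ) : ℝ) / n) (-(1 / n)) (by positivity) (by push_cast; exact hkn)
          (by rw [abs_neg]; exact hs)
        rw [e2] at h4
        have e3 : (1 / (n : ℝ)) ^ 2 * C = C / n ^ 2 := by ring
        have e4 : (-(1 / (n : ℝ))) ^ 2 * C = C / n ^ 2 := by ring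
        rw [e3] at h3
        rw [e4] at h4
        push_cast at h3 h4 ⊢
        constructor <;> linarith
    obtain ⟨h1, h2⟩ := hind n le_rfl
    have e5 : (n : ℝ) / n = 1 := div_self hn0.ne'
    have e6 : (n : ℝ) * (C / n ^ 2) = C / n := by field_simp
    rw [e5, e6] at h1 h2
    rw [abs_le]
    constructor <;> linarith
  have hzero : |β 1 - β 0| ≤ 0 := by
    have hlim : Tendsto (fun n : ℕ => C / (n : ℝ)) atTop (𝓝 0) :=
      tendsto_const_nhds.div_atTop tendsto_natCast_atTop_atTop
    refine ge_of_tendsto hlim ?_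
    filter_upwards [eventually_ge_atTop (Nat.ceil G)] with n hn'
    exact hn n ((Nat.le_ceil G).trans (by exact_mod_cast hn'))
  have := abs_nonpos_iff.1 hzero
  linarith

end

end Pool.Agent.X79.EQ
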